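import Mathlib
import Pool.Graph.R_seed8.H222R2.ShiftChainRed

set_option autoImplicit false

/-! Shift-chains in arbitrary linear orders. -/

namespace Pool.Agent.KS6_77.ShiftAll

open Pool.Agent.H222R2.ShiftChain

universe u

/-- finite point set: colour so that no 4-tuple inside is monochromatic -/
theorem finite_part {L : Type u} [LinearOrder L] (T : Set (Fin 4 → L))
    (hmono : ∀ x ∈ T, StrictMono x) (hch : ∀ x ∈ T, ∀ y ∈ T, x ≤ y ∨ y ≤ x) (s : Finset L) :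
    ∃ g : L → Bool, ∀ x ∈ T, (∀ i, x i ∈ s) → ∃ i j : Fin 4, g (x i) ≠ g (x j) := by
  classical
  let e : s ≃o Fin s.card := (s.orderIsoOfFin rfl).symm
  let e' : L → ℕ := fun y => if h : y ∈ s then (e ⟨y, h⟩ : ℕ) else 0
  have he' : ∀ y (h : y ∈ s), e' y = (e ⟨y, h⟩ : ℕ) := fun y h => by simp only [e', h, dif_pos]
  have hle : ∀ y ∈ s, ∀ z ∈ s, y ≤ z → e' y ≤ e' z := fun y hy z hz h => by
    rw [he' y hy, he' z hz]
    exact e.monotone (show (⟨y, hy⟩ : s) ≤ ⟨z, hz⟩ from h)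
  have hlt : ∀ y ∈ s, ∀ z ∈ s, y < z → e' y < e' z := fun y hy z hz h => by
    rw [he' y hy, he' z hz]
    exact e.strictMono (show (⟨y, hy⟩ : s) < ⟨z, hz⟩ from h)
  -- the finite set of tuples
  let A : Finset (Fin 4 → L) := (Fintype.piFinset fun _ : Fin 4 => s).filter (· ∈ T)
  have hA : ∀ x, x ∈ A ↔ (∀ i, x i ∈ s) ∧ x ∈ T := fun x => by
    simp [A, Finset.mem_filter, Fintype.mem_piFinset]
  obtain ⟨χ, hχ⟩ := tuples (A.image fun x i => e' (x i)) (by
      intro y hy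
      obtain ⟨x, hx, rfl⟩ := Finset.mem_image.1 hy
      obtain ⟨h1, h2⟩ := (hA x).1 hx
      exact fun i j hij => hlt _ (h1 i) _ (h1 j) (hmono x h2 hij)) (by
      intro y hy z hz
      obtain ⟨x, hx, rfl⟩ := Finset.mem_image.1 hy
      obtain ⟨w, hw, rfl⟩ := Finset.mem_image.1 hz
      obtain ⟨h1, h2⟩ := (hA x).1 hx
      obtain ⟨h3, h4⟩ := (hA w).1 hw
      rcases hch x h2 w h4 with h | h
      · exact Or.inl fun i => hle _ (h1 i) _ (h3 i) (h i)
      · exact Or.inr fun i => hle _ (h3 i) _ (h1 i) (h i))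
  refine ⟨fun y => χ (e' y), fun x hx hxs => ?_⟩
  obtain ⟨i, j, hij⟩ := hχ _ (Finset.mem_image_of_mem _ ((hA x).2 ⟨hxs, hx⟩))
  exact ⟨i, j, hij⟩

/-- every chain (finite or infinite) of increasing 4-tuples in any linear order is 2-colourable -/
theorem tuples_all {L : Type u} [LinearOrder L] (T : Set (Fin 4 → L))
    (hmono : ∀ x ∈ T, StrictMono x) (hch : ∀ x ∈ T, ∀ y ∈ T, x ≤ y ∨ y ≤ x) :
    ∃ c : L → Bool, ∀ x ∈ T, ∃ i j : Fin 4, c (x i) ≠ c (x j) := by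
  classical
  choose g hg using finite_part T hmono hch
  obtain ⟨χ, hχ⟩ := Finset.rado_selection (β := fun _ : L => Bool) g
  refine ⟨χ, fun x hx => ?_⟩
  obtain ⟨t, hst, ht⟩ := hχ (Finset.univ.image x)
  have hmem : ∀ i, x i ∈ Finset.univ.image x := fun i => Finset.mem_image_of_mem _ (Finset.mem_univ i)
  obtain ⟨i, j, hij⟩ := hg t x hx fun i => hst (hmem i)
  refine ⟨i, j, ?_⟩
  rw [ht _ (hmem i), ht _ (hmem j)]
  exact hij

/-- `m`-uniform version, `m ≥ 4` -/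
theorem sets_all {L : Type u} [LinearOrder L] {m : ℕ} (hm : 4 ≤ m) (H : Set (Finset L))
    (hH : ∀ A ∈ H, A.card = m)
    (hch : ∀ A (hA : A ∈ H) B (hB : B ∈ H),
      (∀ i : Fin m, A.orderEmbOfFin (hH A hA) i ≤ B.orderEmbOfFin (hH B hB) i) ∨
      (∀ i : Fin m, B.orderEmbOfFin (hH B hB) i ≤ A.orderEmbOfFin (hH A hA) i)) :
    ∃ c : L → Bool, ∀ A ∈ H, ∃ x ∈ A, ∃ y ∈ A, c x ≠ c y := by
  obtain ⟨c, hc⟩ := tuples_all (L := L)
    {x | ∃ A, ∃ hA : A ∈ H, x = fun i : Fin 4 => A.orderEmbOfFin (hH A hA) (Fin.castLE hm i)} (by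
      rintro _ ⟨A, hA, rfl⟩ i j hij
      refine (A.orderEmbOfFin (hH A hA)).strictMono ?_
      rw [Fin.lt_def] at hij ⊢
      exact hij) (by
      rintro _ ⟨A, hA, rfl⟩ _ ⟨B, hB, rfl⟩
      rcases hch A hA B hB with h | h
      · exact Or.inl fun i => h _
      · exact Or.inr fun i => h _)
  refine ⟨c, fun A hA => ?_⟩
  obtain ⟨i, j, hij⟩ := hc _ ⟨A, hA, rfl⟩
  exact ⟨_, Finset.orderEmbOfFin_mem A (hH A hA) _, _, Finset.orderEmbOfFin_mem A (hH A hA) _, hij⟩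

/-- every `m`-uniform shift-chain is 2-colourable -/
def AllColourable (m : ℕ) : Prop :=
  ∀ (n : ℕ) (H : Finset (Finset (Fin n))) (hH : ∀ A ∈ H, A.card = m),
    (∀ A (hA : A ∈ H) B (hB : B ∈ H),
      (∀ i : Fin m, A.orderEmbOfFin (hH A hA) i ≤ B.orderEmbOfFin (hH B hB) i) ∨
      (∀ i : Fin m, B.orderEmbOfFin (hH B hB) i ≤ A.orderEmbOfFin (hH A hA) i)) →
    ∃ c : Fin n → Bool, ∀ A ∈ H, ∃ x ∈ A, ∃ y ∈ A, c x ≠ c y

theorem not_of_tuples {m n k : ℕ} (f : Fin k → Fin m → Fin n) (hf : ∀ t, StrictMono (f t))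
    (hch : ∀ s t, f s ≤ f t ∨ f t ≤ f s)
    (hbad : ∀ c : Fin n → Bool, ∃ t, ∀ i j, c (f t i) = c (f t j)) : ¬ AllColourable m := by
  classical
  intro h
  have hcard : ∀ t, (Finset.univ.image (f t)).card = m := fun t => by
    rw [Finset.card_image_of_injective _ (hf t).injective, Finset.card_univ, Fintype.card_fin]
  have hemb : ∀ t (h : (Finset.univ.image (f t)).card = m) i,
      (Finset.univ.image (f t)).orderEmbOfFin h i = f t i := fun t h i =>
    (congrFun (Finset.orderEmbOfFin_unique h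
      (fun j => Finset.mem_image_of_mem _ (Finset.mem_univ j)) (hf t)) i).symm
  have hH : ∀ A ∈ Finset.univ.image (fun t => Finset.univ.image (f t)), A.card = m := by
    intro A hA
    obtain ⟨t, -, rfl⟩ := Finset.mem_image.1 hA
    exact hcard t
  obtain ⟨c, hc⟩ := h n (Finset.univ.image fun t => Finset.univ.image (f t)) hH (by
    intro A hA B hB
    obtain ⟨s, -, rfl⟩ := Finset.mem_image.1 hA
    obtain ⟨t, -, rfl⟩ := Finset.mem_image.1 hB
    rcases hch s t with h | h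
    · exact Or.inl fun i => by rw [hemb, hemb]; exact h i
    · exact Or.inr fun i => by rw [hemb, hemb]; exact h i)
  obtain ⟨t, ht⟩ := hbad c
  obtain ⟨x, hx, y, hy, hxy⟩ := hc _ (Finset.mem_image_of_mem _ (Finset.mem_univ t))
  obtain ⟨i, -, rfl⟩ := Finset.mem_image.1 hx
  obtain ⟨j, -, rfl⟩ := Finset.mem_image.1 hy
  exact hxy (ht i j)

end Pool.Agent.KS6_77.ShiftAll
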